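import Pool.Agent.Lib_helper52.LQ.Defs

set_option autoImplicit false

namespace Pool.Agent.LQ

open MeasureTheory ENNReal Set Filter Topology Pool.Agent.EPS Pool.Agent.YG

variable {d : ℕ}

/-- change of measure by a bounded density keeps the class -/
theorem tl_nc {μ : Measure (Eu d)} (h : Nc μ) (f : Eu d → ℝ) (hf : Measurable f)
    (h0 : ∀ x, 0 ≤ f x) (C : ℝ) (hC : ∀ x, f x ≤ C) (h1 : ∫ x, f x ∂μ = 1) : Nc (tl μ f) := by
  obtain ⟨hp, ⟨R, hR⟩, M, hM⟩ := h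
  have hint : Integrable f μ := by
    by_contra hn
    rw [integral_undef hn] at h1
    exact zero_ne_one h1
  have e : (tl μ f) univ = 1 := by
    unfold tl
    rw [withDensity_apply _ MeasurableSet.univ, setLIntegral_univ,
      ← ofReal_integral_eq_lintegral_ofReal hint (ae_of_all _ h0), h1, ofReal_one]
  refine ⟨⟨e⟩, ⟨R, (withDensity_absolutelyContinuous μ _).ae_le hR⟩, C.toNNReal * M, ?_⟩
  have e1 : tl μ f ≤ μ.withDensity (fun _ => ENNReal.ofReal C) :=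
    withDensity_mono (ae_of_all _ (fun x => ENNReal.ofReal_le_ofReal (hC x)))
  have e2 : μ.withDensity (fun _ => ENNReal.ofReal C) = ENNReal.ofReal C • μ :=
    withDensity_const _
  rw [e2] at e1
  refine e1.trans ?_
  have e3 : ((C.toNNReal * M : NNReal) : ℝ≥0∞) • (volume : Measure (Eu d))
      = ENNReal.ofReal C • ((M : ℝ≥0∞) • (volume : Measure (Eu d))) := by
    rw [smul_smul, ENNReal.coe_mul]
    rfl
  rw [e3]
  gcongr

theorem tl_sp {L : ℝ} {μ : Measure (Eu d)} (h : Sp L μ) (f : Eu d → ℝ) (hf : Measurable f)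
    (h0 : ∀ x, 0 ≤ f x) (C : ℝ) (hC : ∀ x, f x ≤ C) (h1 : ∫ x, f x ∂μ = 1) : Sp L (tl μ f) :=
  ⟨tl_nc h.1 f hf h0 C hC h1, (withDensity_absolutelyContinuous μ _).ae_le h.2⟩

theorem tl_int (μ : Measure (Eu d)) (f : Eu d → ℝ) (hf : Measurable f) (h0 : ∀ x, 0 ≤ f x)
    (g : Eu d → ℝ) : ∫ x, g x ∂(tl μ f) = ∫ x, f x * g x ∂μ := by
  unfold tl
  rw [integral_withDensity_eq_integral_toReal_smul (by fun_prop)
    (ae_of_all _ (fun x => ENNReal.ofReal_lt_top))]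
  refine integral_congr_ae (ae_of_all _ (fun x => ?_))
  simp only [smul_eq_mul]
  rw [ENNReal.toReal_ofReal (h0 x)]

/-- the two tilts used everywhere satisfy the hypotheses: for `|κ| ≤ M`, `s M ≤ 1/2`, `∫ κ = 0` -/
theorem tl_pm (μ : Measure (Eu d)) [IsProbabilityMeasure μ] (κ : Eu d → ℝ) (hκ : Measurable κ)
    (M s : ℝ) (hM : ∀ x, |κ x| ≤ M) (hs : 0 ≤ s) (hsM : s * M ≤ 1 / 2) (h0 : ∫ x, κ x ∂μ = 0) :
    (∀ x, 0 ≤ 1 + s * κ x) ∧ (∀ x, 0 ≤ 1 - s * κ x) ∧ (∀ x, 1 + s * κ x ≤ 2) ∧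
    (∀ x, 1 - s * κ x ≤ 2) ∧ ∫ x, (1 + s * κ x) ∂μ = 1 ∧ ∫ x, (1 - s * κ x) ∂μ = 1 := by
  have hb : ∀ x, |s * κ x| ≤ 1 / 2 := fun x => by
    rw [abs_mul, abs_of_nonneg hs]
    exact (mul_le_mul_of_nonneg_left (hM x) hs).trans hsM
  have hi : Integrable κ μ :=
    Integrable.of_bound hκ.aestronglyMeasurable M (ae_of_all _ (fun x => by
      rw [Real.norm_eq_abs]; exact hM x))
  refine ⟨fun x => ?_, fun x => ?_, fun x => ?_, fun x => ?_, ?_, ?_⟩
  · have := (abs_le.1 (hb x)).1; linarith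
  · have := (abs_le.1 (hb x)).2; linarith
  · have := (abs_le.1 (hb x)).2; linarith
  · have := (abs_le.1 (hb x)).1; linarith
  · rw [integral_add (integrable_const _) (hi.const_mul s), integral_const_mul, h0]
    simp
  · rw [integral_sub (integrable_const _) (hi.const_mul s), integral_const_mul, h0]
    simp

end Pool.Agent.LQ
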