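import Pool.Agent.Lib_helper52.LQ.Defs
import Pool.Agent.Lib_helper67.YG.T0
import Pool.Agent.Lib_helper87.YG.T3

set_option autoImplicit false

namespace Pool.Agent.LQ

open MeasureTheory ENNReal Set Filter Topology Pool.Agent.EPS Pool.Agent.YG

variable {d : ℕ}

theorem n3_bd (C : ℝ) (t : ℝ) (h0 : 0 ≤ t) (hC : t ≤ C) :
    |Real.negMulLog t| ≤ 1 + C ^ 2 := by
  have hC0 : 0 ≤ C := h0.trans hC
  unfold Real.negMulLog
  rcases h0.eq_or_lt with h | h
  · rw [← h]; simp; positivity
  rw [abs_le]
  constructor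
  · have h1 : Real.log t ≤ t - 1 := Real.log_le_sub_one_of_pos h
    nlinarith
  · have h1 : Real.log t⁻¹ ≤ t⁻¹ - 1 := Real.log_le_sub_one_of_pos (inv_pos.2 h)
    rw [Real.log_inv] at h1
    have h2 : t * (-Real.log t) ≤ t * (t⁻¹ - 1) := mul_le_mul_of_nonneg_left h1 h.le
    have h3 : t * (t⁻¹ - 1) = 1 - t := by field_simp
    nlinarith [sq_nonneg C]

/-- entropy after a change of measure. The density of `tl μ f` is `f * dn μ`; `log_dens` of
`Lib_helper67.YG.T0` gives the integrability of `lg μ`, and `f log f` is bounded on `[0, C]`. -/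
theorem ent_tl {μ : Measure (Eu d)} [IsProbabilityMeasure μ] (h : FinE μ) (f : Eu d → ℝ)
    (hf : Measurable f) (h0 : ∀ x, 0 ≤ f x) (C : ℝ) (hC : ∀ x, f x ≤ C)
    (h1 : ∫ x, f x ∂μ = 1) : IsProbabilityMeasure (tl μ f) ∧ FinE (tl μ f) ∧
      Integrable (fun x => f x * lg μ x) μ ∧
      ent (tl μ f) = -(∫ x, f x * lg μ x ∂μ) - ∫ x, f x * Real.log (f x) ∂μ := by
  have hint : Integrable f μ := by
    by_contra hn
    rw [integral_undef hn] at h1
    exact zero_ne_one h1
  have e : (tl μ f) univ = 1 := by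
    unfold tl
    rw [withDensity_apply _ MeasurableSet.univ, setLIntegral_univ,
      ← ofReal_integral_eq_lintegral_ofReal hint (ae_of_all _ h0), h1, ofReal_one]
  obtain ⟨hl, -, -⟩ := log_dens μ h
  obtain ⟨hac, hne⟩ := h
  have hfl : Integrable (fun x => f x * lg μ x) μ := by
    refine hl.bdd_mul hf.aestronglyMeasurable (c := C) (ae_of_all _ (fun x => ?_))
    rw [Real.norm_eq_abs, abs_of_nonneg (h0 x)]
    exact hC x
  have hff : Integrable (fun x => Real.negMulLog (f x)) μ := by
    refine Integrable.of_bound (Real.continuous_negMulLog.measurable.comp hf).aestronglyMeasurable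
      (1 + C ^ 2) (ae_of_all _ (fun x => ?_))
    rw [Real.norm_eq_abs]
    exact n3_bd C (f x) (h0 x) (hC x)
  have hrn : ∀ᵐ x, ((tl μ f).rnDeriv volume x).toReal = f x * (μ.rnDeriv volume x).toReal := by
    have := Measure.rnDeriv_withDensity_left (μ := μ) (ν := (volume : Measure (Eu d)))
      (f := fun x => ENNReal.ofReal (f x)) (by fun_prop) (ae_of_all _ (fun x => ofReal_ne_top))
    filter_upwards [this] with x hx
    unfold tl
    rw [hx, ENNReal.toReal_mul, ENNReal.toReal_ofReal (h0 x)]
  have hnm : ∀ᵐ x, Real.negMulLog (((tl μ f).rnDeriv volume x).toReal) =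
      (μ.rnDeriv volume x).toReal • Real.negMulLog (f x)
        - (μ.rnDeriv volume x).toReal • (f x * lg μ x) := by
    filter_upwards [hrn] with x hx
    rw [hx, Real.negMulLog_mul]
    simp only [smul_eq_mul, lg, dn, Real.negMulLog]
    ring
  have i1 : Integrable (fun x => (μ.rnDeriv volume x).toReal • Real.negMulLog (f x)) :=
    (integrable_rnDeriv_smul_iff hac).2 hff
  have i2 : Integrable (fun x => (μ.rnDeriv volume x).toReal • (f x * lg μ x)) :=
    (integrable_rnDeriv_smul_iff hac).2 hfl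
  have hac' : tl μ f ≪ volume := (withDensity_absolutelyContinuous μ _).trans hac
  refine ⟨⟨e⟩, ⟨hac', (i1.sub i2).congr ?_⟩, hfl, ?_⟩
  · filter_upwards [hnm] with x hx
    rw [hx]; rfl
  · unfold ent
    rw [integral_congr_ae hnm, integral_sub i1 i2, integral_rnDeriv_smul hac,
      integral_rnDeriv_smul hac]
    have : ∫ x, Real.negMulLog (f x) ∂μ = -∫ x, f x * Real.log (f x) ∂μ := by
      rw [← integral_neg]
      refine integral_congr_ae (ae_of_all _ (fun x => ?_))
      simp only [Real.negMulLog]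
      ring
    rw [this]
    ring

end Pool.Agent.LQ
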